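import Pool.Agent.H24.PM.Stmts

/-! Common part of the moment modules MOM and MOML of project PM. -/

namespace PM
open MeasureTheory Complex

/-- local weight of a prime in the Euler product over A -/
noncomputable def wl (A : Finset ℕ) (σ t : ℝ) (l : ℕ) : ℂ :=
  if l ∈ A then (l : ℂ) ^ (-(1 / 2 + σ + t * I) : ℂ) else 0

theorem phi_zero (γ : ℝ) : phi γ 0 = 1 := by
  unfold phi
  rw [tsum_eq_single 0]
  · simp
  · intro k hk
    simp [hk]

theorem cpow_exp_form (l : ℕ) (hl : 0 < l) (σ t : ℝ) :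
    (l : ℂ) ^ (-(1 / 2 + σ + t * I) : ℂ) =
      Complex.exp (((-((1 / 2 + σ) * Real.log l) : ℝ) : ℂ) + ((-(t * Real.log l) : ℝ) : ℂ) * I) := by
  have hne : (l : ℂ) ≠ 0 := by exact_mod_cast hl.ne'
  rw [Complex.cpow_def_of_ne_zero hne, Complex.natCast_log.symm]
  congr 1
  push_cast
  ring

theorem re_form (x y : ℝ) : ((x : ℂ) + (y : ℂ) * I).re = x := by simp

theorem im_form (x y : ℝ) : ((x : ℂ) + (y : ℂ) * I).im = y := by simp

theorem wl_norm_le (A : Finset ℕ) (σ t : ℝ) (l : ℕ) (hl : 0 < l) (hσ : Ln A σ) :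
    ‖wl A σ t l‖ ≤ Real.exp 8 / Real.sqrt l := by
  unfold wl
  split_ifs with h
  · rw [cpow_exp_form l hl, Complex.norm_exp, re_form]
    have hl0 : (0 : ℝ) < l := by exact_mod_cast hl
    have h8 := hσ l h
    have hlog : 0 ≤ Real.log l := Real.log_natCast_nonneg l
    have hs : Real.sqrt l = Real.exp (1 / 2 * Real.log l) := by
      rw [Real.sqrt_eq_rpow, Real.rpow_def_of_pos hl0]
      ring_nf
    rw [hs, ← Real.exp_sub]
    apply Real.exp_le_exp.mpr
    have h9 : -σ * Real.log l ≤ |σ| * Real.log l :=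
      mul_le_mul_of_nonneg_right (neg_le_abs σ) hlog
    nlinarith
  · rw [norm_zero]
    positivity

theorem wl_mul_conj (A B : Finset ℕ) (σ σ' t t' : ℝ) (l : ℕ) (hl : 0 < l) :
    (wl A σ t l * (starRingEnd ℂ) (wl B σ' t' l)).re =
      if l ∈ A ∩ B then (l : ℝ) ^ (-(1 + (σ + σ'))) * Real.cos ((t - t') * Real.log l) else 0 := by
  unfold wl
  have hl0 : (0 : ℝ) < l := by exact_mod_cast hl
  by_cases h1 : l ∈ A
  · by_cases h2 : l ∈ B
    · have h3 : l ∈ A ∩ B := Finset.mem_inter.mpr ⟨h1, h2⟩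
      rw [if_pos h1, if_pos h2, if_pos h3, cpow_exp_form l hl, cpow_exp_form l hl,
        ← Complex.exp_conj, ← Complex.exp_add, Complex.exp_re]
      rw [Real.rpow_def_of_pos hl0]
      rw [map_add, map_mul, Complex.conj_ofReal, Complex.conj_ofReal, Complex.conj_I]
      rw [Complex.add_re, Complex.add_im, re_form, im_form]
      have h5 : ∀ x y : ℝ, ((x : ℂ) + (y : ℂ) * -I).re = x := by intro x y; simp
      have h6 : ∀ x y : ℝ, ((x : ℂ) + (y : ℂ) * -I).im = -y := by intro x y; simp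
      rw [h5, h6]
      congr 1
      · congr 1
        ring
      · rw [← Real.cos_neg]
        congr 1
        ring
    · have h3 : l ∉ A ∩ B := fun h => h2 (Finset.mem_inter.mp h).2
      rw [if_neg h2, if_neg h3]
      simp
  · have h3 : l ∉ A ∩ B := fun h => h1 (Finset.mem_inter.mp h).1
    rw [if_neg h1, if_neg h3]
    simp

theorem G_eq_sum (γ : ℝ) (A S : Finset ℕ) (hAS : A ⊆ S) (σ t : ℝ) (ω : Om) :
    G γ A σ t ω = ∑ l ∈ S, Real.log ‖phi γ (zc (ω l) * wl A σ t l)‖ := by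
  unfold G
  rw [← Finset.sum_subset hAS]
  · apply Finset.sum_congr rfl
    intro l hl
    unfold wl pt
    rw [if_pos hl]
  · intro l _ hl
    unfold wl
    rw [if_neg hl, mul_zero, phi_zero]
    simp

theorem cont_log_phi (hGC : S_GC) (γ : ℝ) (p0 : ℕ) (hG : Good γ p0) (A : Finset ℕ) (σ t : ℝ)
    (l : ℕ) (hA : PA p0 A) (hσ : Ln A σ) :
    Continuous (fun x : UnitAddCircle => Real.log ‖phi γ (zc x * wl A σ t l)‖) := by
  by_cases h : l ∈ A
  · have hPA : PA p0 {l} := by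
      intro m hm
      rw [Finset.mem_singleton.mp hm]
      exact hA l h
    have hLn : Ln {l} σ := by
      intro m hm
      rw [Finset.mem_singleton.mp hm]
      exact hσ l h
    obtain ⟨h1, -, -⟩ := hGC γ p0 hG {l} hPA σ hLn
    have h3 : Continuous (fun x : UnitAddCircle => ((t, (fun _ : ℕ => x)) : ℝ × Om)) :=
      Continuous.prodMk continuous_const (continuous_pi (fun _ => continuous_id))
    have h2 := h1.comp h3
    have h4 : (fun x : UnitAddCircle => Real.log ‖phi γ (zc x * wl A σ t l)‖) =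
        (fun q : ℝ × Om => G γ {l} σ q.1 q.2) ∘
          (fun x : UnitAddCircle => ((t, (fun _ : ℕ => x)) : ℝ × Om)) := by
      funext x
      simp only [Function.comp, G, Finset.sum_singleton, pt, wl, if_pos h]
    rw [h4]
    exact h2
  · unfold wl
    rw [if_neg h]
    simp only [mul_zero]
    exact continuous_const

theorem abs_log_phi (hGC : S_GC) (γ : ℝ) (p0 : ℕ) (hG : Good γ p0) (A : Finset ℕ) (σ t : ℝ)
    (l : ℕ) (hA : PA p0 A) (hσ : Ln A σ) (x : UnitAddCircle) :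
    |Real.log ‖phi γ (zc x * wl A σ t l)‖| ≤ 1 := by
  by_cases h : l ∈ A
  · have hPA : PA p0 {l} := by
      intro m hm
      rw [Finset.mem_singleton.mp hm]
      exact hA l h
    have hLn : Ln {l} σ := by
      intro m hm
      rw [Finset.mem_singleton.mp hm]
      exact hσ l h
    obtain ⟨-, -, h1⟩ := hGC γ p0 hG {l} hPA σ hLn
    have h2 := h1 t (fun _ : ℕ => x)
    unfold G pt at h2
    unfold wl
    rw [if_pos h]
    simpa using h2
  · unfold wl
    rw [if_neg h, mul_zero, phi_zero]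
    simp

/-- the union of the sets of primes -/
def Un {k : ℕ} (A : Fin k → Finset ℕ) : Finset ℕ := Finset.univ.biUnion A

theorem sub_Un {k : ℕ} (A : Fin k → Finset ℕ) (i : Fin k) : A i ⊆ Un A :=
  Finset.subset_biUnion_of_mem A (Finset.mem_univ i)

theorem PA_Un {k : ℕ} (p0 : ℕ) (A : Fin k → Finset ℕ) (h : ∀ i, PA p0 (A i)) : PA p0 (Un A) := by
  intro l hl
  obtain ⟨i, -, hi⟩ := Finset.mem_biUnion.mp hl
  exact h i l hi

/-- the main term of a prime -/
noncomputable def ul (γ : ℝ) {k : ℕ} (a : Fin k → ℂ) (A : Fin k → Finset ℕ) (σ t : Fin k → ℝ)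
    (l : ℕ) : ℂ :=
  (al γ) ^ 2 / 4 * ∑ i, ∑ j, a i * a j *
    ((wl (A i) (σ i) (t i) l * (starRingEnd ℂ) (wl (A j) (σ j) (t j) l)).re : ℂ)

theorem sum_ul (γ : ℝ) {k : ℕ} (p0 : ℕ) (a : Fin k → ℂ) (A : Fin k → Finset ℕ) (σ t : Fin k → ℝ)
    (hA : ∀ i, PA p0 (A i)) :
    ∑ l ∈ Un A, ul γ a A σ t l = (al γ) ^ 2 / 4 * ∑ i, ∑ j, a i * a j *
      (CS (A i ∩ A j) (σ i + σ j) (t i - t j) : ℂ) := by
  unfold ul
  rw [← Finset.mul_sum, Finset.sum_comm]
  congr 1
  apply Finset.sum_congr rfl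
  intro i _
  rw [Finset.sum_comm]
  apply Finset.sum_congr rfl
  intro j _
  rw [← Finset.mul_sum]
  congr 1
  rw [← Complex.ofReal_sum]
  congr 1
  have h1 : ∀ l ∈ Un A, (wl (A i) (σ i) (t i) l * (starRingEnd ℂ) (wl (A j) (σ j) (t j) l)).re =
      if l ∈ A i ∩ A j then (l : ℝ) ^ (-(1 + (σ i + σ j))) *
        Real.cos ((t i - t j) * Real.log l) else 0 := by
    intro l hl
    have hl0 : 0 < l := ((PA_Un p0 A hA) l hl).1.pos
    exact wl_mul_conj _ _ _ _ _ _ l hl0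
  rw [Finset.sum_congr rfl h1, ← Finset.sum_filter]
  unfold CS
  apply Finset.sum_congr
  · ext l
    simp only [Finset.mem_filter, Finset.mem_inter]
    constructor
    · exact fun h => h.2
    · exact fun h => ⟨sub_Un A i h.1, h⟩
  · intro l _
    rfl

theorem ul_norm_le (γ : ℝ) {k : ℕ} (M : ℝ) (a : Fin k → ℂ) (A : Fin k → Finset ℕ)
    (σ t : Fin k → ℝ) (ha : ∀ i, ‖a i‖ ≤ M) (hσ : ∀ i, Ln (A i) (σ i)) (l : ℕ) (hl : 0 < l) :
    ‖ul γ a A σ t l‖ ≤ (al γ) ^ 2 / 4 * (k * (k * (M * M * Real.exp 16))) / l := by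
  unfold ul
  have hl0 : (0 : ℝ) < l := by exact_mod_cast hl
  have hal : ‖((al γ : ℂ)) ^ 2 / 4‖ = (al γ) ^ 2 / 4 := by
    rw [norm_div, norm_pow, Complex.norm_real, Real.norm_eq_abs, sq_abs]
    norm_num
  rw [norm_mul, hal, mul_div_assoc]
  apply mul_le_mul_of_nonneg_left _ (by positivity)
  have h1 : ∀ i ∈ (Finset.univ : Finset (Fin k)), ‖∑ j, a i * a j *
      ((wl (A i) (σ i) (t i) l * (starRingEnd ℂ) (wl (A j) (σ j) (t j) l)).re : ℂ)‖ ≤
      k * (M * M * Real.exp 16) / l := by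
    intro i _
    have h2 : ∀ j ∈ (Finset.univ : Finset (Fin k)), ‖a i * a j *
      ((wl (A i) (σ i) (t i) l * (starRingEnd ℂ) (wl (A j) (σ j) (t j) l)).re : ℂ)‖ ≤
      M * M * Real.exp 16 / l := by
      intro j _
      have hM : 0 ≤ M := (norm_nonneg _).trans (ha i)
      rw [norm_mul, norm_mul, Complex.norm_real, Real.norm_eq_abs]
      have h3 : |(wl (A i) (σ i) (t i) l * (starRingEnd ℂ) (wl (A j) (σ j) (t j) l)).re| ≤
          Real.exp 16 / l := by
        refine (Complex.abs_re_le_norm _).trans ?_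
        rw [norm_mul, Complex.norm_conj]
        have h4 := wl_norm_le (A i) (σ i) (t i) l hl (hσ i)
        have h5 := wl_norm_le (A j) (σ j) (t j) l hl (hσ j)
        calc ‖wl (A i) (σ i) (t i) l‖ * ‖wl (A j) (σ j) (t j) l‖
            ≤ (Real.exp 8 / Real.sqrt l) * (Real.exp 8 / Real.sqrt l) :=
              mul_le_mul h4 h5 (norm_nonneg _) (by positivity)
          _ = Real.exp 16 / l := by
              rw [div_mul_div_comm, ← Real.exp_add, Real.mul_self_sqrt hl0.le]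
              norm_num
      calc ‖a i‖ * ‖a j‖ * |(wl (A i) (σ i) (t i) l *
              (starRingEnd ℂ) (wl (A j) (σ j) (t j) l)).re|
          ≤ (M * M) * (Real.exp 16 / l) := by
            apply mul_le_mul _ h3 (abs_nonneg _) (by positivity)
            exact mul_le_mul (ha i) (ha j) (norm_nonneg _) hM
        _ = M * M * Real.exp 16 / l := by ring
    refine (norm_sum_le _ _).trans ((Finset.sum_le_sum h2).trans ?_)
    rw [Finset.sum_const, Finset.card_univ, Fintype.card_fin, nsmul_eq_mul]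
    apply le_of_eq
    ring
  refine (norm_sum_le _ _).trans ((Finset.sum_le_sum h1).trans ?_)
  rw [Finset.sum_const, Finset.card_univ, Fintype.card_fin, nsmul_eq_mul]
  apply le_of_eq
  ring

/-- the local moment -/
noncomputable def El (γ : ℝ) {k : ℕ} (a : Fin k → ℂ) (A : Fin k → Finset ℕ) (σ t : Fin k → ℝ)
    (l : ℕ) : ℂ :=
  ∫ x : UnitAddCircle, Complex.exp (∑ i, a i * Real.log ‖phi γ (zc x * wl (A i) (σ i) (t i) l)‖)

theorem moment_prod (hPROD : S_PROD) (hGC : S_GC) (γ : ℝ) (p0 : ℕ) (hG : Good γ p0) {k : ℕ}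
    (a : Fin k → ℂ) (A : Fin k → Finset ℕ) (σ t : Fin k → ℝ) (hA : ∀ i, PA p0 (A i))
    (hσ : ∀ i, Ln (A i) (σ i)) :
    ∫ ω : Om, Complex.exp (∑ i, a i * G γ (A i) (σ i) (t i) ω) ∂P =
      ∏ l ∈ Un A, El γ a A σ t l := by
  unfold El
  rw [← hPROD (Un A) (fun l x => Complex.exp (∑ i, a i *
    Real.log ‖phi γ (zc x * wl (A i) (σ i) (t i) l)‖))]
  · congr 1
    funext ω
    rw [← Complex.exp_sum]
    congr 1
    rw [Finset.sum_comm]
    apply Finset.sum_congr rfl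
    intro i _
    rw [G_eq_sum γ (A i) (Un A) (sub_Un A i), Complex.ofReal_sum, Finset.mul_sum]
  · intro l _
    apply Complex.continuous_exp.comp
    apply continuous_finsetSum
    intro i _
    apply continuous_const.mul
    exact Complex.continuous_ofReal.comp (cont_log_phi hGC γ p0 hG (A i) (σ i) (t i) l (hA i) (hσ i))

theorem El_near (hLOC : S_LOC) (γ : ℝ) (p0 : ℕ) (hG : Good γ p0) (k : ℕ) (M : ℝ) :
    ∃ C : ℝ, 0 < C ∧ ∀ (a : Fin k → ℂ) (A : Fin k → Finset ℕ) (σ t : Fin k → ℝ),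
      (∀ i, ‖a i‖ ≤ M) → (∀ i, PA p0 (A i)) → (∀ i, Ln (A i) (σ i)) → ∀ l ∈ Un A,
      ‖El γ a A σ t l - 1 - ul γ a A σ t l‖ ≤ C * (l : ℝ) ^ (-(3 / 2) : ℝ) := by
  obtain ⟨C, hC, h⟩ := hLOC γ p0 hG k M
  refine ⟨C, hC, ?_⟩
  intro a A σ t ha hA hσ l hl
  have hp := PA_Un p0 A hA l hl
  exact h l hp.2 a (fun i => wl (A i) (σ i) (t i) l) ha
    (fun i => wl_norm_le (A i) (σ i) (t i) l hp.1.pos (hσ i))

theorem sum_rpow_le : ∃ Z : ℝ, 0 < Z ∧ ∀ S : Finset ℕ, ∑ l ∈ S, (l : ℝ) ^ (-(3 / 2) : ℝ) ≤ Z := by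
  have hs : Summable (fun n : ℕ => (n : ℝ) ^ (-(3 / 2) : ℝ)) :=
    Real.summable_nat_rpow.mpr (by norm_num)
  refine ⟨∑' n : ℕ, (n : ℝ) ^ (-(3 / 2) : ℝ) + 1, ?_, ?_⟩
  · have : 0 ≤ ∑' n : ℕ, (n : ℝ) ^ (-(3 / 2) : ℝ) := tsum_nonneg (fun n => by positivity)
    linarith
  · intro S
    have := hs.sum_le_tsum S (fun n _ => by positivity)
    linarith

end PM
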